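import Pool.Agent.Helper48.FB.Defs

/-!
# Project FB, piece FB-3: sums of `dens L x * dens L (n - x)`
-/

set_option autoImplicit false

namespace Pool.Agent.Helper7.FB

open Finset
open Pool.Agent.Helper48.FB

theorem sum_inv_sqrt_le (m : ℕ) : ∑ x ∈ range m, 1 / √((x : ℝ) + 1) ≤ 2 * √(m : ℝ) := by
  induction m with
  | zero => simp
  | succ m ih =>
    rw [sum_range_succ]
    have hm : (0 : ℝ) ≤ m := Nat.cast_nonneg m
    have h1 : 0 < √((m : ℝ) + 1) := Real.sqrt_pos.2 (by linarith)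
    have h0 : 0 ≤ √(m : ℝ) := Real.sqrt_nonneg _
    have hle : √(m : ℝ) ≤ √((m : ℝ) + 1) := Real.sqrt_le_sqrt (by linarith)
    have hs1 : √((m : ℝ) + 1) ^ 2 = m + 1 := Real.sq_sqrt (by linarith)
    have hs0 : √(m : ℝ) ^ 2 = m := Real.sq_sqrt hm
    have key : 1 / √((m : ℝ) + 1) ≤ 2 * (√((m : ℝ) + 1) - √(m : ℝ)) := by
      rw [div_le_iff₀ h1]
      nlinarith [mul_nonneg h0 (sub_nonneg.2 hle), sq_nonneg (√((m : ℝ) + 1) - √(m : ℝ))]
    push_cast
    linarith

theorem dens_nonneg (L x : ℕ) : 0 ≤ dens L x :=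
  le_min zero_le_one (Real.sqrt_nonneg _)

theorem dens_le (L x : ℕ) : dens L x ≤ √(16 * L) / √((x : ℝ) + 1) := by
  unfold Pool.Agent.Helper48.FB.dens
  refine (min_le_right _ _).trans (le_of_eq ?_)
  rw [Real.sqrt_div (by positivity)]

/-- FB-A3a -/
theorem pairs_dens_le (L n : ℕ) :
    ∑ x ∈ (range n).filter (fun x => x < n - x), dens L x * dens L (n - x) ≤ 32 * L := by
  set m := (n + 1) / 2 with hm
  have hn : (0 : ℝ) ≤ n := Nat.cast_nonneg n
  have hL : (0 : ℝ) ≤ L := Nat.cast_nonneg L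
  have hq : 0 < √(((n : ℝ) + 1) / 2) := Real.sqrt_pos.2 (by linarith)
  have hsub : (range n).filter (fun x => x < n - x) ⊆ range m := by
    intro x hx
    simp only [mem_filter, mem_range] at hx ⊢
    omega
  have hterm : ∀ x ∈ (range n).filter (fun x => x < n - x),
      dens L x * dens L (n - x) ≤ (16 * L / √(((n : ℝ) + 1) / 2)) * (1 / √((x : ℝ) + 1)) := by
    intro x hx
    simp only [mem_filter, mem_range] at hx
    have hx0 : (0 : ℝ) ≤ x := Nat.cast_nonneg x
    have hxp : 0 < √((x : ℝ) + 1) := Real.sqrt_pos.2 (by linarith)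
    have hc : ((n - x : ℕ) : ℝ) = n - x := by
      rw [Nat.cast_sub (by omega)]
    have h2 : (2 * x + 1 : ℝ) ≤ n := by
      exact_mod_cast (by omega : 2 * x + 1 ≤ n)
    have hle : √(((n : ℝ) + 1) / 2) ≤ √(((n - x : ℕ) : ℝ) + 1) := by
      apply Real.sqrt_le_sqrt
      rw [hc]
      linarith
    have h3 : dens L (n - x) ≤ √(16 * L) / √(((n : ℝ) + 1) / 2) := by
      refine (dens_le L (n - x)).trans ?_
      exact div_le_div_of_nonneg_left (Real.sqrt_nonneg _) hq hle
    have hss : √(16 * (L : ℝ)) * √(16 * (L : ℝ)) = 16 * L := Real.mul_self_sqrt (by positivity)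
    calc dens L x * dens L (n - x)
        ≤ (√(16 * L) / √((x : ℝ) + 1)) * (√(16 * L) / √(((n : ℝ) + 1) / 2)) :=
          mul_le_mul (dens_le L x) h3 (dens_nonneg _ _) (by positivity)
      _ = (√(16 * (L : ℝ)) * √(16 * (L : ℝ)) / √(((n : ℝ) + 1) / 2)) * (1 / √((x : ℝ) + 1)) := by
          field_simp
      _ = (16 * L / √(((n : ℝ) + 1) / 2)) * (1 / √((x : ℝ) + 1)) := by rw [hss]
  have hmle : √(m : ℝ) ≤ √(((n : ℝ) + 1) / 2) := by
    apply Real.sqrt_le_sqrt
    have : ((m * 2 : ℕ) : ℝ) ≤ ((n + 1 : ℕ) : ℝ) := by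
      exact_mod_cast (Nat.div_mul_le_self (n + 1) 2)
    push_cast at this
    linarith
  calc ∑ x ∈ (range n).filter (fun x => x < n - x), dens L x * dens L (n - x)
      ≤ ∑ x ∈ (range n).filter (fun x => x < n - x),
          (16 * L / √(((n : ℝ) + 1) / 2)) * (1 / √((x : ℝ) + 1)) := sum_le_sum hterm
    _ ≤ ∑ x ∈ range m, (16 * L / √(((n : ℝ) + 1) / 2)) * (1 / √((x : ℝ) + 1)) :=
        sum_le_sum_of_subset_of_nonneg hsub (fun x _ _ => by positivity)
    _ = (16 * L / √(((n : ℝ) + 1) / 2)) * ∑ x ∈ range m, (1 / √((x : ℝ) + 1)) := by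
        rw [mul_sum]
    _ ≤ (16 * L / √(((n : ℝ) + 1) / 2)) * (2 * √(((n : ℝ) + 1) / 2)) := by
        apply mul_le_mul_of_nonneg_left _ (by positivity)
        exact (sum_inv_sqrt_le m).trans (by linarith)
    _ = 32 * L := by
        field_simp
        ring

/-- FB-A3b -/
theorem le_pairs_dens {b L n : ℕ} (hL : 100 ≤ L) (hb : 4 * b ≤ n) (hn : 16 * L < n + 1) :
    4 * (L : ℝ) - 2 ≤ ∑ x ∈ (range n).filter (fun x => x < n - x),
      (if b ≤ x then dens L x else 0) * (if b ≤ n - x then dens L (n - x) else 0) := by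
  have hL0 : (0 : ℝ) < L := by exact_mod_cast (by omega : 0 < L)
  have hnp : (0 : ℝ) < (n : ℝ) + 1 := by positivity
  have hlt : 16 * (L : ℝ) < n + 1 := by exact_mod_cast hn
  have hr1 : 16 * (L : ℝ) / (n + 1) ≤ 1 := by
    rw [div_le_one hnp]
    exact hlt.le
  have hdens : ∀ x : ℕ, x ≤ n → √(16 * (L : ℝ) / (n + 1)) ≤ dens L x := by
    intro x hx
    have hxn : (x : ℝ) ≤ n := by exact_mod_cast hx
    have hx0 : (0 : ℝ) ≤ x := Nat.cast_nonneg x
    unfold Pool.Agent.Helper48.FB.dens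
    refine le_min ?_ ?_
    · rw [Real.sqrt_le_left (by norm_num)]
      linarith
    · apply Real.sqrt_le_sqrt
      exact div_le_div_of_nonneg_left (by positivity) (by linarith) (by linarith)
  set I : Finset ℕ := Ico ((n + 3) / 4) ((n + 1) / 2) with hI
  have hsub : I ⊆ (range n).filter (fun x => x < n - x) := by
    intro x hx
    simp only [hI, mem_Ico, mem_filter, mem_range] at hx ⊢
    omega
  have hcard : ((n : ℝ) + 1) / 4 - 1 ≤ I.card := by
    have h1 : n + 1 ≤ 4 * (I.card + 1) := by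
      rw [hI, Nat.card_Ico]
      omega
    have h2 : ((n : ℝ) + 1) ≤ 4 * ((I.card : ℝ) + 1) := by exact_mod_cast h1
    linarith
  have hnn : ∀ x ∈ (range n).filter (fun x => x < n - x), x ∉ I →
      0 ≤ (if b ≤ x then dens L x else 0) * (if b ≤ n - x then dens L (n - x) else 0) := by
    intro x _ _
    apply mul_nonneg
    · split_ifs
      · exact dens_nonneg _ _
      · exact le_refl _
    · split_ifs
      · exact dens_nonneg _ _
      · exact le_refl _
  have hterm : ∀ x ∈ I, 16 * (L : ℝ) / (n + 1) ≤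
      (if b ≤ x then dens L x else 0) * (if b ≤ n - x then dens L (n - x) else 0) := by
    intro x hx
    simp only [hI, mem_Ico] at hx
    rw [if_pos (by omega), if_pos (by omega)]
    have hs : √(16 * (L : ℝ) / (n + 1)) * √(16 * (L : ℝ) / (n + 1)) = 16 * L / (n + 1) :=
      Real.mul_self_sqrt (by positivity)
    rw [← hs]
    exact mul_le_mul (hdens x (by omega)) (hdens (n - x) (by omega)) (Real.sqrt_nonneg _)
      (dens_nonneg _ _)
  calc 4 * (L : ℝ) - 2 ≤ (((n : ℝ) + 1) / 4 - 1) * (16 * L / (n + 1)) := by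
        have : (((n : ℝ) + 1) / 4 - 1) * (16 * L / (n + 1)) = 4 * L - 16 * L / (n + 1) := by
          field_simp
          ring
        rw [this]
        linarith
    _ ≤ (I.card : ℝ) * (16 * L / (n + 1)) :=
        mul_le_mul_of_nonneg_right hcard (by positivity)
    _ = ∑ _x ∈ I, 16 * (L : ℝ) / (n + 1) := by
        rw [sum_const, nsmul_eq_mul]
    _ ≤ ∑ x ∈ I, (if b ≤ x then dens L x else 0) * (if b ≤ n - x then dens L (n - x) else 0) :=
        sum_le_sum hterm
    _ ≤ _ := sum_le_sum_of_subset_of_nonneg hsub hnn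

end Pool.Agent.Helper7.FB
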